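import Mathlib

/-!
# Distributed point functions (definitions)
-/

namespace V11223.DPF

/-- An `m`-party distributed point function scheme with domain `[N]` and output group `G`
(syntax): randomised key generation, keys are bit strings, and an evaluation map. -/
structure Scheme (m N : ℕ) (G : Type) [AddCommGroup G] where
  Gen : Fin N → G → PMF (Fin m → List Bool)
  Eval : Fin m → List Bool → Fin N → G

namespace Scheme

variable {m N : ℕ} {G : Type} [AddCommGroup G] (F : Scheme m N G)

open Classical in
/-- Correctness: for all `α, β`, every possible output of `Gen(α, β)` and every `x`, the values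
`Eval(i, k_i, x)` sum to `f_{α,β}(x)`. -/
def Correct : Prop :=
  ∀ (α : Fin N) (β : G), ∀ k ∈ (F.Gen α β).support, ∀ x : Fin N,
    ∑ i, F.Eval i (k i) x = if x = α then β else 0

/-- Perfect security with threshold `1`: the distribution of each single key does not depend on
the point function. -/
def PerfectlySecure : Prop :=
  ∀ (i : Fin m) (α : Fin N) (β : G) (α' : Fin N) (β' : G),
    (F.Gen α β).map (fun k => k i) = (F.Gen α' β').map (fun k => k i)

/-- All keys have at most `ℓ` bits. -/
def KeySizeLE (ℓ : ℕ) : Prop :=
  ∀ (α : Fin N) (β : G), ∀ k ∈ (F.Gen α β).support, ∀ i, (k i).length ≤ ℓ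

end Scheme

end V11223.DPF
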