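import Pool.Agent.V11223.DPF.MV
import Pool.Agent.V11223.ZAM.Growth

/-!
# Growth of the key size
-/

namespace V11223.DPF

open Classical V11223.ZAM

/-- `√(log N · log log N)` -/
noncomputable def sub (N : ℕ) : ℝ := Real.sqrt (Real.log N * Real.log (Real.log N))

theorem one_le_sub (N : ℕ) (hN : 16 ≤ N) : 1 ≤ sub N := by
  unfold sub
  rw [Real.one_le_sqrt]
  nlinarith [log16 N hN, loglog16 N hN]

theorem exists_t' (q : ℕ) (hq : 2 ≤ q) (z : ℝ) (hz : 1 ≤ z) :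
    ∃ t : ℕ, z ≤ ((q : ℝ) ^ 2) ^ t ∧ ((q : ℝ) ^ 2) ^ t ≤ (q : ℝ) ^ 2 * z := by
  have hq2 : (2 : ℝ) ≤ q := by exact_mod_cast hq
  have hqq : 1 < (q : ℝ) ^ 2 := by nlinarith
  have hex : ∃ t : ℕ, z ≤ ((q : ℝ) ^ 2) ^ t := by
    obtain ⟨t, ht⟩ := pow_unbounded_of_one_lt z hqq
    exact ⟨t, ht.le⟩
  let t := Nat.find hex
  have ht : z ≤ ((q : ℝ) ^ 2) ^ t := Nat.find_spec hex
  refine ⟨t, ht, ?_⟩
  rcases Nat.eq_zero_or_pos t with h0 | h0
  · rw [h0, pow_zero]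
    nlinarith
  · have h1 : ¬ z ≤ ((q : ℝ) ^ 2) ^ (t - 1) := Nat.find_min hex (by omega)
    push Not at h1
    have h2 : ((q : ℝ) ^ 2) ^ t = (q : ℝ) ^ 2 * ((q : ℝ) ^ 2) ^ (t - 1) := by
      rw [← pow_succ']; congr 1; omega
    rw [h2]
    exact mul_le_mul_of_nonneg_left h1.le (by positivity)

theorem exists_s' (p m : ℕ) (hp : 2 ≤ p) (hm : 1 ≤ m) : ∃ s : ℕ, m < p ^ s ∧ p ^ s ≤ p * m := by
  refine ⟨Nat.log p m + 1, Nat.lt_pow_succ_log_self (by omega) _, ?_⟩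
  have : p ^ Nat.log p m ≤ m := Nat.pow_log_le_self p (by omega)
  rw [pow_succ, mul_comm]
  exact Nat.mul_le_mul_left _ this

theorem real_bound' (p q E : ℕ) (hp : 2 ≤ p) (hq : 2 ≤ q) : ∃ C : ℝ, 0 ≤ C ∧
    ∀ (L l : ℝ), 2.72 < L → l = Real.log L → 1 < l → ∀ (t : ℕ),
      ((q : ℝ) ^ 2) ^ t ≤ (q : ℝ) ^ 2 * (L / l + 1) → ∀ (h r : ℝ), 1 ≤ h → 1 ≤ r →
      h ≤ p * ((q : ℝ) ^ 2) ^ t → r ≤ L + 1 →
      (h * r) ^ (E * q ^ t) ≤ Real.exp (C * Real.sqrt (L * l)) := by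
  set c := Real.log (4 * p * q ^ 2) + 2 with hc
  have hp' : (2 : ℝ) ≤ p := by exact_mod_cast hp
  have hq' : (2 : ℝ) ≤ q := by exact_mod_cast hq
  have h4 : (1 : ℝ) ≤ 4 * p * q ^ 2 := by nlinarith
  have hc2 : 2 ≤ c := by
    have := Real.log_nonneg h4
    linarith
  refine ⟨E * (Real.sqrt (2 * q ^ 2) * c), by positivity, ?_⟩
  intro L l hL hl hl1 t ht h r hh1 hr1 hh hr
  have hLl : l ≤ L := by
    rw [hl]
    have := Real.log_le_sub_one_of_pos (by linarith : 0 < L)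
    linarith
  have hl0 : 0 < l := by linarith
  have hL0 : 0 < L := by linarith
  have h1 : 1 ≤ L / l := by rw [le_div_iff₀ hl0]; linarith
  have h2 : L / l ≤ L := by
    rw [div_le_iff₀ hl0]
    nlinarith
  have h3 : h ≤ p * (q ^ 2 * (2 * L)) := by
    calc h ≤ p * ((q : ℝ) ^ 2) ^ t := hh
      _ ≤ p * ((q : ℝ) ^ 2 * (L / l + 1)) := by gcongr
      _ ≤ p * (q ^ 2 * (2 * L)) := by gcongr; linarith
  have h5 : h * r ≤ (4 * p * q ^ 2) * L ^ 2 := by
    calc h * r ≤ (p * (q ^ 2 * (2 * L))) * (2 * L) := by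
          apply mul_le_mul h3 (by linarith) (by linarith) (by positivity)
      _ = (4 * p * q ^ 2) * L ^ 2 := by ring
  have h8 : h * r ≤ Real.exp (c * l) := by
    have e1 : (4 * p * q ^ 2 : ℝ) = Real.exp (c - 2) := by
      rw [hc, add_sub_cancel_right, Real.exp_log (by linarith)]
    have e2 : L ^ 2 = Real.exp (2 * l) := by
      rw [hl, show (2 : ℝ) * Real.log L = ((2 : ℕ) : ℝ) * Real.log L by norm_num,
        Real.exp_nat_mul, Real.exp_log hL0]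
    calc h * r ≤ (4 * p * q ^ 2) * L ^ 2 := h5
      _ = Real.exp (c - 2 + 2 * l) := by rw [e1, e2, Real.exp_add]
      _ ≤ Real.exp (c * l) := by
        apply Real.exp_le_exp.2
        nlinarith
  have h9 : (q : ℝ) ^ t ≤ Real.sqrt (2 * q ^ 2 * (L / l)) := by
    apply Real.le_sqrt_of_sq_le
    calc ((q : ℝ) ^ t) ^ 2 = ((q : ℝ) ^ 2) ^ t := by rw [← pow_mul, mul_comm, pow_mul]
      _ ≤ (q : ℝ) ^ 2 * (L / l + 1) := ht
      _ ≤ (q : ℝ) ^ 2 * (2 * (L / l)) := by gcongr; linarith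
      _ = _ := by ring
  have h10 : l * Real.sqrt (2 * q ^ 2 * (L / l)) = Real.sqrt (2 * q ^ 2) * Real.sqrt (L * l) := by
    have : l = Real.sqrt (l ^ 2) := (Real.sqrt_sq hl0.le).symm
    conv_lhs => rw [this]
    rw [← Real.sqrt_mul (by positivity), ← Real.sqrt_mul (by positivity)]
    congr 1
    rw [Real.sqrt_sq hl0.le]
    field_simp
  have hpos : 0 < h * r := by nlinarith
  calc (h * r) ^ (E * q ^ t) ≤ (Real.exp (c * l)) ^ (E * q ^ t) := by gcongr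
    _ = Real.exp (((E * q ^ t : ℕ) : ℝ) * (c * l)) := by rw [Real.exp_nat_mul]
    _ ≤ Real.exp (E * (Real.sqrt (2 * q ^ 2) * c) * Real.sqrt (L * l)) := by
      apply Real.exp_le_exp.2
      push_cast
      calc (E : ℝ) * (q : ℝ) ^ t * (c * l) = E * c * (l * q ^ t) := by ring
        _ ≤ E * c * (l * Real.sqrt (2 * q ^ 2 * (L / l))) := by gcongr
        _ = E * (Real.sqrt (2 * q ^ 2) * c) * Real.sqrt (L * l) := by rw [h10]; ring

theorem growth_prime_power (p e : ℕ) [hp : Fact p.Prime] : ∃ C : ℝ, 0 ≤ C ∧ ∀ N : ℕ, 16 ≤ N →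
    ∃ ℓ : ℕ, HasT N (ZMod (p ^ e)) ℓ ∧ (ℓ : ℝ) ≤ Real.exp (C * sub N) := by
  obtain ⟨q, hq, hpq, hq2⟩ : ∃ q : ℕ, q.Prime ∧ p ≠ q ∧ q ≠ 2 := by
    by_cases h : p = 3
    · exact ⟨5, by norm_num, by omega, by norm_num⟩
    · exact ⟨3, by norm_num, h, by norm_num⟩
  haveI : Fact q.Prime := ⟨hq⟩
  have hp2 := hp.out.two_le
  have hq2' := hq.two_le
  -- reduce `e = 0` to `e = 1`
  obtain ⟨e', he', π, hπ⟩ : ∃ (e' : ℕ) (_ : e' ≠ 0) (π : ZMod (p ^ e') →+ ZMod (p ^ e)),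
      Function.Surjective π := by
    by_cases he : e = 0
    · subst he
      refine ⟨1, one_ne_zero, 0, ?_⟩
      intro c
      refine ⟨0, ?_⟩
      have : Subsingleton (ZMod (p ^ 0)) := by rw [pow_zero]; infer_instance
      exact Subsingleton.elim _ _
    · exact ⟨e, he, AddMonoidHom.id _, Function.surjective_id⟩
  obtain ⟨B, hB⟩ := param_scheme p e' q hpq hq2 he'
  obtain ⟨C, hC0, hC⟩ := real_bound' p q (p * p ^ e') hp2 hq2'
  refine ⟨C + 2 * B, by positivity, ?_⟩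
  intro N hN
  set L := Real.log N with hLdef
  set l := Real.log L with hldef
  have hL : 2.72 < L := log16 N hN
  have hl1 : 1 < l := loglog16 N hN
  have hl0 : 0 < l := by linarith
  have hL0 : 0 < L := by linarith
  have hsub : sub N = Real.sqrt (L * l) := rfl
  have hsub1 : 1 ≤ sub N := one_le_sub N hN
  obtain ⟨t, ht1, ht2⟩ := exists_t' q hq2' (L / l + 1) (by
    have : 0 ≤ L / l := by positivity
    linarith)
  obtain ⟨s, hs1, hs2⟩ := exists_s' p (q ^ t) hp2 (Nat.one_le_iff_ne_zero.2 (by positivity))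
  set r := ⌈L⌉₊ with hr
  have hr1 : L ≤ r := Nat.le_ceil L
  have hr2 : (r : ℝ) ≤ L + 1 := (Nat.ceil_lt_add_one hL0.le).le
  set h := p ^ s * q ^ t - 1 with hh
  have hqt : 0 < q ^ t := by positivity
  have h9 : q ^ t * q ^ t = (q ^ 2) ^ t := by rw [← mul_pow, sq]
  have hA : q ^ t * q ^ t < p ^ s * q ^ t := Nat.mul_lt_mul_of_pos_right hs1 hqt
  have hBB : p ^ s * q ^ t ≤ p * (q ^ t * q ^ t) := by
    calc p ^ s * q ^ t ≤ (p * q ^ t) * q ^ t := Nat.mul_le_mul_right _ hs2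
      _ = p * (q ^ t * q ^ t) := by ring
  have hh1 : (q ^ 2) ^ t ≤ h := by rw [← h9]; omega
  have hh2 : h ≤ p * (q ^ 2) ^ t := by rw [← h9]; omega
  have hh1' : ((q : ℝ) ^ 2) ^ t ≤ h := by exact_mod_cast hh1
  have hh2' : (h : ℝ) ≤ p * ((q : ℝ) ^ 2) ^ t := by exact_mod_cast hh2
  have hnr : N ≤ r ^ h := by
    have h1 : (N : ℝ) ≤ (r : ℝ) ^ h := by
      have hn0 : (0 : ℝ) < N := by
        have : 0 < N := by omega
        exact_mod_cast this
      calc (N : ℝ) = Real.exp L := (Real.exp_log hn0).symm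
        _ = Real.exp ((L / l) * l) := by rw [div_mul_cancel₀ _ hl0.ne']
        _ ≤ Real.exp ((h : ℝ) * l) := by
          apply Real.exp_le_exp.2
          apply mul_le_mul_of_nonneg_right _ hl0.le
          linarith
        _ = L ^ h := by rw [Real.exp_nat_mul, hldef, Real.exp_log hL0]
        _ ≤ (r : ℝ) ^ h := by gcongr
    exact_mod_cast h1
  refine ⟨_, (hB N s t r hnr).quot π hπ, ?_⟩
  have hh1r : (1 : ℝ) ≤ h := by
    refine le_trans ?_ hh1'
    apply one_le_pow₀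
    have : (1 : ℝ) ≤ q := by exact_mod_cast hq.one_le
    nlinarith
  have hrr : (1 : ℝ) ≤ r := by linarith
  have hb := hC L l hL hldef hl1 t ht2 h r hh1r hrr hh2' hr2
  have hhn : 1 ≤ h := by exact_mod_cast hh1r
  have hrn : 1 ≤ r := by exact_mod_cast hrr
  have hhr : 1 ≤ h * r := Nat.mul_pos hhn hrn
  have hdim : ∀ D : ℕ, D ≤ p * q ^ t → h.choose D * r ^ D ≤ (h * r) ^ (p * q ^ t) := by
    intro D hD
    calc h.choose D * r ^ D ≤ h ^ D * r ^ D := Nat.mul_le_mul_right _ (Nat.choose_le_pow _ _)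
      _ = (h * r) ^ D := (mul_pow _ _ _).symm
      _ ≤ (h * r) ^ (p * q ^ t) := Nat.pow_le_pow_right hhr hD
  have hpe : 1 ≤ p ^ e' := Nat.one_le_iff_ne_zero.2 (by positivity)
  have hX : h.choose (q ^ t - 1) * r ^ (q ^ t - 1) ≤ (h * r) ^ (p * p ^ e' * q ^ t) := by
    refine (hdim _ ?_).trans (Nat.pow_le_pow_right hhr ?_)
    · calc q ^ t - 1 ≤ 1 * q ^ t := by omega
        _ ≤ p * q ^ t := Nat.mul_le_mul_right _ (by omega)
    · apply Nat.mul_le_mul_right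
      exact Nat.le_mul_of_pos_right _ hpe
  have hY : (h.choose (p ^ s - 1) * r ^ (p ^ s - 1)) ^ p ^ e' ≤
      (h * r) ^ (p * p ^ e' * q ^ t) := by
    calc (h.choose (p ^ s - 1) * r ^ (p ^ s - 1)) ^ p ^ e'
        ≤ ((h * r) ^ (p * q ^ t)) ^ p ^ e' := Nat.pow_le_pow_left (hdim _ (by omega)) _
      _ = (h * r) ^ (p * p ^ e' * q ^ t) := by rw [← pow_mul]; congr 1; ring
  have hcast : (((h * r) ^ (p * p ^ e' * q ^ t) : ℕ) : ℝ) ≤ Real.exp (C * Real.sqrt (L * l)) := by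
    push_cast
    exact hb
  have hX' : ((h.choose (q ^ t - 1) * r ^ (q ^ t - 1) : ℕ) : ℝ) ≤
      Real.exp (C * Real.sqrt (L * l)) := le_trans (by exact_mod_cast hX) hcast
  have hY' : (((h.choose (p ^ s - 1) * r ^ (p ^ s - 1)) ^ p ^ e' : ℕ) : ℝ) ≤
      Real.exp (C * Real.sqrt (L * l)) := le_trans (by exact_mod_cast hY) hcast
  have hfin : ((B * (h.choose (q ^ t - 1) * r ^ (q ^ t - 1)) +
      B * (h.choose (p ^ s - 1) * r ^ (p ^ s - 1)) ^ p ^ e' : ℕ) : ℝ) ≤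
      2 * B * Real.exp (C * Real.sqrt (L * l)) := by
    have e1 : ((B * (h.choose (q ^ t - 1) * r ^ (q ^ t - 1)) +
      B * (h.choose (p ^ s - 1) * r ^ (p ^ s - 1)) ^ p ^ e' : ℕ) : ℝ) =
      (B : ℝ) * ((h.choose (q ^ t - 1) * r ^ (q ^ t - 1) : ℕ) : ℝ) +
      (B : ℝ) * (((h.choose (p ^ s - 1) * r ^ (p ^ s - 1)) ^ p ^ e' : ℕ) : ℝ) := by
      push_cast; ring
    rw [e1]
    have hB0 : (0 : ℝ) ≤ B := Nat.cast_nonneg _
    have := mul_le_mul_of_nonneg_left hX' hB0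
    have := mul_le_mul_of_nonneg_left hY' hB0
    linarith
  refine hfin.trans ?_
  have hB2 : (2 * B : ℝ) ≤ Real.exp (2 * B * sub N) := by
    have h1 : (2 * B : ℝ) ≤ 2 * B * sub N := by
      have : (0 : ℝ) ≤ 2 * B := by positivity
      nlinarith
    have h2 := Real.add_one_le_exp (2 * B * sub N)
    linarith
  calc 2 * B * Real.exp (C * Real.sqrt (L * l))
      ≤ Real.exp (2 * B * sub N) * Real.exp (C * Real.sqrt (L * l)) := by gcongr
    _ = Real.exp ((C + 2 * B) * sub N) := by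
      rw [← hsub, ← Real.exp_add]; congr 1; ring

/-- The growth bound for every finite abelian group. -/
theorem growth_group (G : Type) [AddCommGroup G] [Finite G] : ∃ C : ℝ, 0 ≤ C ∧
    ∀ N : ℕ, 16 ≤ N → ∃ ℓ : ℕ, HasT N G ℓ ∧ (ℓ : ℝ) ≤ Real.exp (C * sub N) := by
  obtain ⟨ι, _, p, hp, e, ⟨f⟩⟩ := AddCommGroup.equiv_directSum_zmod_of_finite G
  have key : ∀ i, ∃ C : ℝ, 0 ≤ C ∧ ∀ N : ℕ, 16 ≤ N →
      ∃ ℓ : ℕ, HasT N (ZMod (p i ^ e i)) ℓ ∧ (ℓ : ℝ) ≤ Real.exp (C * sub N) := by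
    intro i
    haveI : Fact (p i).Prime := ⟨hp i⟩
    exact growth_prime_power (p i) (e i)
  choose C hC0 hC using key
  refine ⟨(∑ i, C i) + Fintype.card ι, by
    have : 0 ≤ ∑ i, C i := Finset.sum_nonneg fun i _ => hC0 i
    positivity, ?_⟩
  intro N hN
  have hs : 1 ≤ sub N := one_le_sub N hN
  choose ℓ hℓ hb using fun i => hC i N hN
  have h1 := HasT.pi (fun i => ZMod (p i ^ e i)) ℓ hℓ
  let g : (∀ i, ZMod (p i ^ e i)) ≃+ G :=
    (DirectSum.addEquivProd (fun i => ZMod (p i ^ e i))).symm.trans f.symm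
  refine ⟨_, h1.quot g.toAddMonoidHom g.surjective, ?_⟩
  push_cast
  calc ∑ i, (ℓ i : ℝ) ≤ ∑ i : ι, Real.exp ((∑ i, C i) * sub N) := by
        apply Finset.sum_le_sum
        intro i _
        refine (hb i).trans (Real.exp_le_exp.2 ?_)
        apply mul_le_mul_of_nonneg_right _ (by linarith)
        exact Finset.single_le_sum (fun i _ => hC0 i) (Finset.mem_univ i)
    _ = Fintype.card ι * Real.exp ((∑ i, C i) * sub N) := by
        rw [Finset.sum_const, Finset.card_univ, nsmul_eq_mul]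
    _ ≤ Real.exp (Fintype.card ι * sub N) * Real.exp ((∑ i, C i) * sub N) := by
        gcongr
        have h2 := Real.add_one_le_exp ((Fintype.card ι : ℝ) * sub N)
        have h3 : (Fintype.card ι : ℝ) ≤ Fintype.card ι * sub N := by
          have : (0 : ℝ) ≤ Fintype.card ι := Nat.cast_nonneg _
          nlinarith
        linarith
    _ = Real.exp (((∑ i, C i) + Fintype.card ι) * sub N) := by
        rw [← Real.exp_add]; congr 1; ring

end V11223.DPF
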