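import Pool.Agent.V11223.DPF.Defs

/-!
# A finite ring of characteristic `p^e` with a `q`-th root of unity
-/

namespace V11223.DPF

open Classical Polynomial

theorem isUnit_one_sub {R : Type} [CommRing R] (q : ℕ) [hq : Fact q.Prime]
    (ω : AddChar (ZMod q) R) (hsum : ∑ a : ZMod q, ω a = 0) (hqu : IsUnit (q : R))
    (j : ZMod q) (hj : j ≠ 0) : IsUnit (1 - ω j) := by
  have h1 : ∑ a : ZMod q, (1 - ω (j * a)) = q := by
    rw [Finset.sum_sub_distrib]
    have : ∑ a : ZMod q, ω (j * a) = ∑ a : ZMod q, ω a :=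
      Fintype.sum_equiv (Equiv.mulLeft₀ j hj) _ _ (fun a => rfl)
    rw [this, hsum]
    simp [ZMod.card]
  have h2 : ∀ a : ZMod q, (1 - ω j) ∣ (1 - ω (j * a)) := by
    intro a
    have : j * a = a.val • j := by
      rw [nsmul_eq_mul, ZMod.natCast_zmod_val]
      ring
    rw [this, AddChar.map_nsmul_eq_pow]
    have := sub_dvd_pow_sub_pow (1 : R) (ω j) a.val
    rwa [one_pow] at this
  have h3 : (1 - ω j) ∣ (q : R) := by
    rw [← h1]
    exact Finset.dvd_sum fun a _ => h2 a
  exact isUnit_of_dvd_unit h3 hqu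

/-- The ring `(ℤ/p^e)[X] / Φ_q`. -/
theorem exists_ring (p e q : ℕ) [hp : Fact p.Prime] [hq : Fact q.Prime] (hpq : p ≠ q)
    (hq2 : q ≠ 2) (he : e ≠ 0) :
    ∃ (R : Type) (_ : CommRing R) (_ : Fintype R) (ω : AddChar (ZMod q) R)
      (π : R →+ ZMod (p ^ e)), Function.Surjective π ∧ ((p : R) ^ e = 0) ∧
      IsUnit (1 - ω 1) ∧ IsUnit (1 - ω (-1)) ∧ IsUnit (ω (-1) - ω 1) := by
  have hp1 : 1 < p ^ e := Nat.one_lt_pow he hp.out.one_lt
  have : Fact (1 < p ^ e) := ⟨hp1⟩
  have : NeZero (p ^ e) := ⟨by omega⟩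
  set A := ZMod (p ^ e) with hA
  set f : A[X] := cyclotomic q A with hf
  have hmon : f.Monic := cyclotomic.monic q A
  have hdeg : f.natDegree = q - 1 := by
    rw [hf, natDegree_cyclotomic, Nat.totient_prime hq.out]
  have hdeg0 : 0 < f.natDegree := by
    have := hq.out.two_le
    omega
  let bas := AdjoinRoot.powerBasisAux' hmon
  have : Module.Finite A (AdjoinRoot f) := Module.Finite.of_basis bas
  have : Finite (AdjoinRoot f) := Module.finite_of_finite A
  have fin : Fintype (AdjoinRoot f) := Fintype.ofFinite _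
  set θ : AdjoinRoot f := AdjoinRoot.root f with hθ
  have hev : ∀ g : A[X], f ∣ g → aeval θ g = 0 := by
    intro g hg
    rw [AdjoinRoot.aeval_eq, AdjoinRoot.mk_eq_zero]
    exact hg
  have hθq : θ ^ q = 1 := by
    have := hev _ (cyclotomic.dvd_X_pow_sub_one q A)
    simpa [sub_eq_zero] using this
  have hsumθ : ∑ i ∈ Finset.range q, θ ^ i = 0 := by
    have := hev (∑ i ∈ Finset.range q, X ^ i) (dvd_of_eq (hf.trans (cyclotomic_prime A q)))
    simpa using this
  have hqu : IsUnit ((q : ℕ) : AdjoinRoot f) := by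
    have h1 : IsUnit ((q : ℕ) : A) := by
      rw [ZMod.isUnit_iff_coprime]
      apply Nat.Coprime.pow_right
      exact (Nat.coprime_primes hq.out hp.out).2 (Ne.symm hpq)
    have h2 := h1.map (algebraMap A (AdjoinRoot f))
    rwa [map_natCast] at h2
  let ω : AddChar (ZMod q) (AdjoinRoot f) := AddChar.zmodChar q hθq
  have hω : ∀ a : ZMod q, ω a = θ ^ a.val := fun a => AddChar.zmodChar_apply hθq a
  have hsum : ∑ a : ZMod q, ω a = 0 := by
    rw [← hsumθ]
    rw [Finset.sum_congr rfl (fun a _ => hω a)]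
    have : NeZero q := ⟨hq.out.ne_zero⟩
    apply Finset.sum_bij (fun (a : ZMod q) _ => a.val)
    · intro a _
      exact Finset.mem_range.2 (ZMod.val_lt a)
    · intro a _ b _ h
      exact ZMod.val_injective q h
    · intro i hi
      exact ⟨(i : ZMod q), Finset.mem_univ _, ZMod.val_natCast_of_lt (Finset.mem_range.1 hi)⟩
    · intro a _; rfl
  have h20 : (2 : ZMod q) ≠ 0 := by
    intro h
    have h1 : ((2 : ℕ) : ZMod q) = 0 := by exact_mod_cast h
    rw [ZMod.natCast_eq_zero_iff] at h1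
    have := (Nat.prime_dvd_prime_iff_eq hq.out Nat.prime_two).1 h1
    exact hq2 this
  refine ⟨AdjoinRoot f, inferInstance, fin, ω, (bas.coord ⟨0, hdeg0⟩).toAddMonoidHom, ?_, ?_,
    ?_, ?_, ?_⟩
  · intro c
    refine ⟨c • bas ⟨0, hdeg0⟩, ?_⟩
    simp
  · have h1 : ((p ^ e : ℕ) : A) = 0 := ZMod.natCast_self _
    have h2 := congrArg (algebraMap A (AdjoinRoot f)) h1
    rw [map_natCast, map_zero] at h2
    exact_mod_cast h2
  · exact isUnit_one_sub q ω hsum hqu 1 one_ne_zero
  · exact isUnit_one_sub q ω hsum hqu (-1) (neg_ne_zero.2 one_ne_zero)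
  · have h1 : ω (-1) - ω 1 = ω (-1) * (1 - ω 2) := by
      rw [mul_sub, mul_one, ← AddChar.map_add_eq_mul]
      congr 2
      ring
    rw [h1]
    refine IsUnit.mul ?_ (isUnit_one_sub q ω hsum hqu 2 h20)
    refine IsUnit.of_mul_eq_one (ω 1) ?_
    rw [← AddChar.map_add_eq_mul, neg_add_cancel, AddChar.map_zero_eq_one]

end V11223.DPF
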