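import Pool.Agent.V11223.DPF.Typed
import Pool.Agent.V11223.DPF.Ring
import Pool.Agent.V11223.ZAM.MV

/-!
# Matching vectors over `ℤ/p^e` and `𝔽_q` and the three-party scheme
-/

namespace V11223.DPF

open Classical V11223.ZAM

/-- `g ≡ b (mod p)`, `b ∈ {0,1}`, gives `g^{p^e} = b` when `p^e = 0`. -/
theorem pow_eq_ite {R : Type} [CommRing R] (p e : ℕ) [hp : Fact p.Prime] (h0 : (p : R) ^ e = 0)
    (g : ℕ) (P : Prop) [Decidable P] (hg : ((g : ℕ) : ZMod p) = if P then 1 else 0) :
    (g : R) ^ (p ^ e) = if P then 1 else 0 := by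
  have h1 : (p : ℤ) ∣ (g : ℤ) - (if P then 1 else 0) := by
    rw [← ZMod.intCast_zmod_eq_zero_iff_dvd]
    push_cast
    rw [hg]
    split_ifs <;> simp
  have h2 : (p : R) ∣ (g : R) - (if P then 1 else 0) := by
    obtain ⟨c, hc⟩ := h1
    refine ⟨(c : R), ?_⟩
    have := congrArg (Int.cast : ℤ → R) hc
    push_cast at this
    exact this
  have h3 := dvd_sub_pow_of_dvd_sub h2 e
  rw [pow_succ, h0, zero_mul, zero_dvd_iff, sub_eq_zero] at h3
  rw [h3]
  have : p ^ e ≠ 0 := pow_ne_zero _ hp.out.ne_zero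
  split_ifs
  · rw [one_pow]
  · rw [zero_pow this]

theorem ip_vec {h r D : ℕ} (K : Type) [CommRing K] (u v : Fin h → Fin r) :
    ip (vec (D := D) K u) (vec K v) =
      (((Finset.univ.filter fun i => u i = v i).card.choose D : ℕ) : K) := vec_inner K u v

/-- tensor power of the matching vector -/
noncomputable def tvec {h r D : ℕ} (K : Type) [CommRing K] (M : ℕ) (u : Fin h → Fin r)
    (c : Fin M → Coord h r D) : K := ∏ i, vec K u (c i)

theorem ip_tvec {h r D : ℕ} (K : Type) [CommRing K] (M : ℕ) (u v : Fin h → Fin r) :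
    ip (tvec (D := D) K M u) (tvec K M v) =
      (((Finset.univ.filter fun i => u i = v i).card.choose D : ℕ) : K) ^ M := by
  rw [← ip_vec, ip, ip, Fintype.sum_pow]
  apply Finset.sum_congr rfl
  intro c _
  unfold tvec
  rw [Finset.prod_mul_distrib]

/-- The three-party scheme over `ℤ/p^e` with parameters `s, t, r`. -/
theorem param_scheme (p e q : ℕ) [hp : Fact p.Prime] [hq : Fact q.Prime] (hpq : p ≠ q)
    (hq2 : q ≠ 2) (he : e ≠ 0) : ∃ B : ℕ, ∀ (N s t r : ℕ), N ≤ r ^ (p ^ s * q ^ t - 1) →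
      HasT N (ZMod (p ^ e))
        (B * ((p ^ s * q ^ t - 1).choose (q ^ t - 1) * r ^ (q ^ t - 1)) +
          B * ((p ^ s * q ^ t - 1).choose (p ^ s - 1) * r ^ (p ^ s - 1)) ^ (p ^ e)) := by
  obtain ⟨R, _, _, ω, π, hπ, h0, u1, u2, u3⟩ := exists_ring p e q hpq hq2 he
  refine ⟨2 * q + 2 * Fintype.card R, ?_⟩
  intro N s t r hN
  refine HasT.quot ?_ π hπ
  set h := p ^ s * q ^ t - 1 with hh
  have hpp := hp.out.pos
  have hqp := hq.out.pos
  have hpos : 0 < p ^ s * q ^ t := by positivity
  have hh1 : h + 1 = p ^ s * q ^ t := by omega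
  have hcard : Fintype.card (Fin N) ≤ Fintype.card (Fin h → Fin r) := by
    rw [Fintype.card_fun, Fintype.card_fin, Fintype.card_fin, Fintype.card_fin]; exact hN
  obtain ⟨enc⟩ := Function.Embedding.nonempty_of_card_le hcard
  have hself : ∀ u : Fin h → Fin r, (Finset.univ.filter fun i => u i = u i).card = h := by
    intro u; simp
  have hlt : ∀ y j : Fin N, j ≠ y →
      (Finset.univ.filter fun i => enc y i = enc j i).card < h := by
    intro y j hyj
    have h1 : (Finset.univ.filter fun i => enc y i = enc j i) ⊂ Finset.univ := by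
      rw [Finset.filter_ssubset]
      by_contra hcon
      push Not at hcon
      exact hyj (enc.injective (funext fun i => hcon i (Finset.mem_univ _))).symm
    have := Finset.card_lt_card h1
    simpa using this
  refine HasT.of_vectors (S2 := Fin (p ^ e) → Coord h r (p ^ s - 1))
    (S3 := Coord h r (q ^ t - 1)) ω u1 u2 u3
    (fun y => tvec R (p ^ e) (enc y)) (fun y => vec (ZMod q) (enc y)) ?_ ?_ ?_ ?_ _ ?_
  · intro y
    rw [ip_tvec, hself, pow_eq_ite p e h0 _ _ (choose_prime_pow p s h), hh1]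
    simp
  · intro y
    rw [ip_vec, hself, choose_prime_pow, hh1]
    simp
  · intro y x
    rw [ip_vec, choose_prime_pow]
    split_ifs
    · exact Or.inr rfl
    · exact Or.inl rfl
  · intro y x hyx
    rw [ip_vec, ip_tvec, pow_eq_ite p e h0 _ _ (choose_prime_pow p s _), choose_prime_pow]
    have h1 := hlt y x hyx
    set k := (Finset.univ.filter fun i => enc y i = enc x i).card with hk
    by_cases h2 : q ^ t ∣ k + 1
    · by_cases h3 : p ^ s ∣ k + 1
      · exfalso
        have hcop : Nat.Coprime (p ^ s) (q ^ t) :=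
          Nat.Coprime.pow _ _ ((Nat.coprime_primes hp.out hq.out).2 hpq)
        have h4 := hcop.mul_dvd_of_dvd_of_dvd h3 h2
        have h5 := Nat.le_of_dvd (by omega) h4
        omega
      · right; simp [h3]
    · left; simp [h2]
  · rw [Fintype.card_fun, card_Coord, card_Coord, Fintype.card_fin]
    set A := h.choose (q ^ t - 1) * r ^ (q ^ t - 1)
    set C := (h.choose (p ^ s - 1) * r ^ (p ^ s - 1)) ^ p ^ e
    have h1 : (q ^ A) ^ 2 ≤ 2 ^ (2 * q * A) := by
      calc (q ^ A) ^ 2 ≤ ((2 ^ q) ^ A) ^ 2 := by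
            gcongr
            exact Nat.lt_two_pow_self.le
        _ = 2 ^ (2 * q * A) := by rw [← pow_mul, ← pow_mul]; congr 1; ring
    have h2 : (Fintype.card R ^ C) ^ 2 ≤ 2 ^ (2 * Fintype.card R * C) := by
      calc (Fintype.card R ^ C) ^ 2 ≤ ((2 ^ Fintype.card R) ^ C) ^ 2 := by
            gcongr
            exact Nat.lt_two_pow_self.le
        _ = 2 ^ (2 * Fintype.card R * C) := by rw [← pow_mul, ← pow_mul]; congr 1; ring
    calc (q ^ A) ^ 2 * (Fintype.card R ^ C) ^ 2
        ≤ 2 ^ (2 * q * A) * 2 ^ (2 * Fintype.card R * C) := Nat.mul_le_mul h1 h2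
      _ = 2 ^ (2 * q * A + 2 * Fintype.card R * C) := by rw [pow_add]
      _ ≤ _ := by
        apply Nat.pow_le_pow_right (by norm_num)
        apply Nat.add_le_add
        · exact Nat.mul_le_mul_right _ (by omega)
        · exact Nat.mul_le_mul_right _ (by omega)

end V11223.DPF
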