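import Pool.Agent.V11223.DPF.Defs

/-!
# Typed schemes with uniformly distributed keys
-/

namespace V11223.DPF

open Classical

/-- There is a three-party scheme with uniformly distributed keys in a set of at most `2^ℓ`
keys. -/
def HasT (N : ℕ) (G : Type) [AddCommGroup G] (ℓ : ℕ) : Prop :=
  ∃ (Ω K : Type) (_ : Fintype Ω) (_ : Nonempty Ω) (_ : Fintype K)
    (gen : Fin N → G → Ω → Fin 3 → K) (ev : Fin 3 → K → Fin N → G),
    (∀ α β ω x, ∑ i, ev i (gen α β ω i) x = if x = α then β else 0) ∧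
    (∀ α β i, Function.Bijective fun ω => gen α β ω i) ∧ Fintype.card K ≤ 2 ^ ℓ

theorem HasT.mono {N : ℕ} {G : Type} [AddCommGroup G] {ℓ ℓ' : ℕ} (h : HasT N G ℓ)
    (hl : ℓ ≤ ℓ') : HasT N G ℓ' := by
  obtain ⟨Ω, K, _, _, _, gen, ev, hc, hb, hk⟩ := h
  exact ⟨Ω, K, inferInstance, inferInstance, inferInstance, gen, ev, hc, hb, hk.trans (Nat.pow_le_pow_right (by norm_num) hl)⟩

theorem HasT.restrict {N N' : ℕ} {G : Type} [AddCommGroup G] {ℓ : ℕ} (h : HasT N' G ℓ)
    (hN : N ≤ N') : HasT N G ℓ := by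
  obtain ⟨Ω, K, _, _, _, gen, ev, hc, hb, hk⟩ := h
  refine ⟨Ω, K, inferInstance, inferInstance, inferInstance, fun α => gen (Fin.castLE hN α), fun i k x => ev i k (Fin.castLE hN x),
    ?_, ?_, hk⟩
  · intro α β ω x
    rw [hc]
    congr 1
    apply propext
    exact ⟨fun h => Fin.castLE_injective hN h, fun h => by rw [h]⟩
  · intro α β i
    exact hb _ β i

theorem HasT.quot {N : ℕ} {G G' : Type} [AddCommGroup G] [AddCommGroup G'] {ℓ : ℕ}
    (h : HasT N G' ℓ) (π : G' →+ G) (hπ : Function.Surjective π) : HasT N G ℓ := by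
  obtain ⟨Ω, K, _, _, _, gen, ev, hc, hb, hk⟩ := h
  refine ⟨Ω, K, inferInstance, inferInstance, inferInstance, fun α β => gen α (hπ β).choose, fun i k x => π (ev i k x),
    ?_, ?_, hk⟩
  · intro α β ω x
    rw [← map_sum, hc]
    split_ifs
    · exact (hπ β).choose_spec
    · exact map_zero π
  · intro α β i
    exact hb _ _ i

theorem HasT.pi {N : ℕ} {ι : Type} [Fintype ι] (G : ι → Type) [∀ i, AddCommGroup (G i)]
    (ℓ : ι → ℕ) (h : ∀ i, HasT N (G i) (ℓ i)) : HasT N (∀ i, G i) (∑ i, ℓ i) := by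
  choose Ω K iΩ nΩ iK gen ev hc hb hk using h
  refine ⟨∀ i, Ω i, ∀ i, K i, inferInstance, inferInstance, inferInstance,
    fun α β ω j i => gen i α (β i) (ω i) j, fun j k x i => ev i j (k i) x, ?_, ?_, ?_⟩
  · intro α β ω x
    funext i
    rw [Finset.sum_apply, hc]
    split_ifs <;> rfl
  · intro α β j
    constructor
    · intro ω ω' he
      funext i
      exact (hb i α (β i) j).1 (congrFun he i)
    · intro k
      choose ω hω using fun i => (hb i α (β i) j).2 (k i)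
      exact ⟨ω, funext hω⟩
  · rw [Fintype.card_pi, ← Finset.prod_pow_eq_pow_sum]
    exact Finset.prod_le_prod' fun i _ => hk i

theorem map_uniform_of_bijective {Ω K : Type} [Fintype Ω] [Nonempty Ω] [Fintype K] [Nonempty K]
    (f : Ω → K) (hf : Function.Bijective f) :
    (PMF.uniformOfFintype Ω).map f = PMF.uniformOfFintype K := by
  ext b
  obtain ⟨a, rfl⟩ := hf.2 b
  rw [PMF.map_apply, tsum_eq_single a]
  · rw [if_pos rfl, PMF.uniformOfFintype_apply, PMF.uniformOfFintype_apply,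
      Fintype.card_of_bijective hf]
  · intro a' ha'
    rw [if_neg]
    intro he
    exact ha' (hf.1 he).symm

theorem HasT.scheme {N : ℕ} {G : Type} [AddCommGroup G] {ℓ : ℕ} (h : HasT N G ℓ) :
    ∃ F : Scheme 3 N G, F.Correct ∧ F.PerfectlySecure ∧ F.KeySizeLE ℓ := by
  obtain ⟨Ω, K, _, _, _, gen, ev, hc, hb, hk⟩ := h
  have hcard : Fintype.card K ≤ Fintype.card (Fin ℓ → Bool) := by simpa using hk
  obtain ⟨e⟩ := Function.Embedding.nonempty_of_card_le hcard
  let enc : K → List Bool := fun κ => List.ofFn (e κ)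
  have henc : Function.Injective enc := by
    intro a b hab
    exact e.injective (List.ofFn_injective hab)
  let Ev : Fin 3 → List Bool → Fin N → G := fun i k x =>
    if h : ∃ κ : K, enc κ = k then ev i h.choose x else 0
  have hEv : ∀ i κ x, Ev i (enc κ) x = ev i κ x := by
    intro i κ x
    have h : ∃ κ' : K, enc κ' = enc κ := ⟨κ, rfl⟩
    simp only [Ev, dif_pos h]
    rw [henc h.choose_spec]
  refine ⟨⟨fun α β => (PMF.uniformOfFintype Ω).map fun ω i => enc (gen α β ω i), Ev⟩,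
    ?_, ?_, ?_⟩
  · intro α β k hk x
    rw [PMF.mem_support_map_iff] at hk
    obtain ⟨ω, -, rfl⟩ := hk
    have := hc α β ω x
    rw [← this]
    exact Finset.sum_congr rfl fun i _ => hEv i _ x
  · intro i α β α' β'
    have : Nonempty K := by
      obtain ⟨ω⟩ := ‹Nonempty Ω›
      exact ⟨gen α β ω i⟩
    have key : ∀ α β, ((PMF.uniformOfFintype Ω).map fun ω i => enc (gen α β ω i)).map
        (fun k => k i) = (PMF.uniformOfFintype K).map enc := by
      intro α β
      rw [PMF.map_comp, ← map_uniform_of_bijective _ (hb α β i), PMF.map_comp]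
      rfl
    rw [key, key]
  · intro α β k hk i
    rw [PMF.mem_support_map_iff] at hk
    obtain ⟨ω, -, rfl⟩ := hk
    simp [enc]

/-! ### The three-party scheme from matching vectors -/

section main

variable {N q : ℕ} {R : Type} [CommRing R] {S2 S3 : Type} [Fintype S2] [Fintype S3]

/-- inner product -/
def ip {S A : Type} [Fintype S] [CommRing A] (u v : S → A) : A := ∑ s, u s * v s

theorem ip_sub {S A : Type} [Fintype S] [CommRing A] (u u' v : S → A) :
    ip (u - u') v = ip u v - ip u' v := by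
  simp [ip, sub_mul, Finset.sum_sub_distrib]

theorem ip_smul {S A : Type} [Fintype S] [CommRing A] (c : A) (u v : S → A) :
    ip (c • u) v = c * ip u v := by
  simp [ip, mul_assoc, Finset.mul_sum]

/-- the identity behind the scheme -/
theorem key_identity [Fact q.Prime] (ω : AddChar (ZMod q) R) (c1 c2 c3 : R)
    (h1 : c1 * (1 - ω 1) = 1) (h2 : c2 * (1 - ω (-1)) = 1) (h3 : c3 * (ω (-1) - ω 1) = 1)
    (s1 s2 s3 g : ZMod q) (hg : s1 + s2 + s3 = g) (hg01 : g = 0 ∨ g = 1) (G1 G2 G3 : R) :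
    ω (-s3 - 2 * s2) * (-c2 * G2 + c3 * G3) + -(ω (2 * s1 + s3) * (c1 * G1 + c3 * G3)) +
      ω (s1 - s2) * (c1 * G1 + c2 * G2) =
      if g = 0 then 0 else ω (s1 - s2) * (G1 + G2 + G3) := by
  have e1 : ω (-s3 - 2 * s2) = ω (s1 - s2) * ω (-g) := by
    rw [← AddChar.map_add_eq_mul]; congr 1; rw [← hg]; ring
  have e2 : ω (2 * s1 + s3) = ω (s1 - s2) * ω g := by
    rw [← AddChar.map_add_eq_mul]; congr 1; rw [← hg]; ring
  rw [e1, e2]
  have h01 : (1 : ZMod q) ≠ 0 := one_ne_zero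
  rcases hg01 with h | h
  · rw [if_pos h, h, neg_zero, AddChar.map_zero_eq_one]
    ring
  · rw [h, if_neg h01]
    linear_combination (ω (s1 - s2) * G1) * h1 + (ω (s1 - s2) * G2) * h2 +
      (ω (s1 - s2) * G3) * h3

theorem HasT.of_vectors [Fact q.Prime] [Fintype R] (ω : AddChar (ZMod q) R)
    (h1 : IsUnit (1 - ω 1)) (h2 : IsUnit (1 - ω (-1))) (h3 : IsUnit (ω (-1) - ω 1))
    (a : Fin N → S2 → R) (b : Fin N → S3 → ZMod q)
    (haa : ∀ y, ip (a y) (a y) = 1) (hbb : ∀ y, ip (b y) (b y) = 1)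
    (hb01 : ∀ y x, ip (b y) (b x) = 0 ∨ ip (b y) (b x) = 1)
    (hab : ∀ y x, x ≠ y → ip (b y) (b x) = 0 ∨ ip (a y) (a x) = 0) (ℓ : ℕ)
    (hℓ : (q ^ Fintype.card S3) ^ 2 * (Fintype.card R ^ Fintype.card S2) ^ 2 ≤ 2 ^ ℓ) :
    HasT N R ℓ := by
  obtain ⟨u1, hu1⟩ := h1.exists_left_inv
  obtain ⟨u2, hu2⟩ := h2.exists_left_inv
  obtain ⟨u3, hu3⟩ := h3.exists_left_inv
  let T : Type := ((S3 → ZMod q) × (S3 → ZMod q)) × ((S2 → R) × (S2 → R))
  let third : (Fin N) → R → T → (S3 → ZMod q) := fun α _ ω' => b α - ω'.1.1 - ω'.1.2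
  let κ : (Fin N) → R → T → R := fun α β ω' =>
    β * ω (-(ip ω'.1.1 (b α) - ip ω'.1.2 (b α)))
  let thirdA : (Fin N) → R → T → (S2 → R) := fun α β ω' =>
    κ α β ω' • a α - ω'.2.1 - ω'.2.2
  let gen : Fin N → R → T → Fin 3 → T := fun α β ω' =>
    ![((ω'.1.2, third α β ω'), (ω'.2.2, thirdA α β ω')),
      ((ω'.1.1, third α β ω'), (ω'.2.1, thirdA α β ω')), ω']
  let ev : Fin 3 → T → Fin N → R :=
    ![fun k x => ω (-(ip k.1.2 (b x)) - 2 * ip k.1.1 (b x)) *
          (-u2 * ip k.2.1 (a x) + u3 * ip k.2.2 (a x)),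
      fun k x => -(ω (2 * ip k.1.1 (b x) + ip k.1.2 (b x)) *
          (u1 * ip k.2.1 (a x) + u3 * ip k.2.2 (a x))),
      fun k x => ω (ip k.1.1 (b x) - ip k.1.2 (b x)) *
          (u1 * ip k.2.1 (a x) + u2 * ip k.2.2 (a x))]
  have hcorr : ∀ α β ω' x, ∑ i, ev i (gen α β ω' i) x = if x = α then β else 0 := by
    intro α β ω' x
    obtain ⟨⟨w1, w2⟩, ⟨a1, a2⟩⟩ := ω'
    rw [Fin.sum_univ_three]
    have hs : ip w1 (b x) + ip w2 (b x) + ip (b α - w1 - w2) (b x) = ip (b α) (b x) := by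
      rw [ip_sub, ip_sub]; ring
    have hG : ip a1 (a x) + ip a2 (a x) +
        ip (κ α β ((w1, w2), (a1, a2)) • a α - a1 - a2) (a x) =
        κ α β ((w1, w2), (a1, a2)) * ip (a α) (a x) := by
      rw [ip_sub, ip_sub, ip_smul]; ring
    have hk := key_identity ω u1 u2 u3 hu1 hu2 hu3 (ip w1 (b x)) (ip w2 (b x))
      (ip (b α - w1 - w2) (b x)) (ip (b α) (b x)) hs (hb01 α x)
      (ip a1 (a x)) (ip a2 (a x)) (ip (κ α β ((w1, w2), (a1, a2)) • a α - a1 - a2) (a x))
    rw [hG] at hk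
    refine Eq.trans ?_ (hk.trans ?_)
    · rfl
    · by_cases hx : x = α
      · subst hx
        rw [hbb, haa, if_neg one_ne_zero, if_pos rfl, mul_one]
        simp only [κ]
        rw [mul_left_comm, ← AddChar.map_add_eq_mul, add_neg_cancel, AddChar.map_zero_eq_one,
          mul_one]
      · rw [if_neg hx]
        by_cases h0 : ip (b α) (b x) = 0
        · rw [if_pos h0]
        · rw [if_neg h0, (hab α x hx).resolve_left h0, mul_zero, mul_zero]
  refine ⟨T, T, inferInstance, inferInstance, inferInstance, gen, ev, hcorr, ?_, ?_⟩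
  · intro α β i
    rw [← Finite.injective_iff_bijective]
    fin_cases i
    · rintro ⟨⟨w1, w2⟩, ⟨a1, a2⟩⟩ ⟨⟨w1', w2'⟩, ⟨a1', a2'⟩⟩ he
      have he' : ((w2, b α - w1 - w2), (a2, κ α β ((w1, w2), (a1, a2)) • a α - a1 - a2)) =
        (((w2', b α - w1' - w2'), (a2', κ α β ((w1', w2'), (a1', a2')) • a α - a1' - a2')) :
          T) := he
      simp only [Prod.mk.injEq] at he'
      obtain ⟨⟨e1, e2⟩, ⟨e3, e4⟩⟩ := he'
      subst e1
      subst e3
      have e5 : w1 = w1' := by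
        have := sub_left_inj.1 e2
        exact sub_right_inj.1 this
      subst e5
      have e6 : a1 = a1' := by
        have := sub_left_inj.1 e4
        exact sub_right_inj.1 this
      rw [e6]
    · rintro ⟨⟨w1, w2⟩, ⟨a1, a2⟩⟩ ⟨⟨w1', w2'⟩, ⟨a1', a2'⟩⟩ he
      have he' : ((w1, b α - w1 - w2), (a1, κ α β ((w1, w2), (a1, a2)) • a α - a1 - a2)) =
        (((w1', b α - w1' - w2'), (a1', κ α β ((w1', w2'), (a1', a2')) • a α - a1' - a2')) :
          T) := he
      simp only [Prod.mk.injEq] at he'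
      obtain ⟨⟨e1, e2⟩, ⟨e3, e4⟩⟩ := he'
      subst e1
      subst e3
      have e5 : w2 = w2' := sub_right_inj.1 e2
      subst e5
      have e6 : a2 = a2' := sub_right_inj.1 e4
      rw [e6]
    · intro ω1 ω2 he
      exact he
  · have : Fintype.card T = (q ^ Fintype.card S3) ^ 2 * (Fintype.card R ^ Fintype.card S2) ^ 2 := by
      simp only [T, Fintype.card_prod, Fintype.card_fun, ZMod.card]
      ring
    rw [this]; exact hℓ

end main

end V11223.DPF
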